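import Pool.Agent.N105.LT.Defs

set_option autoImplicit false

/-!
Project LG (helper105), task LT/I4 (helper627).
-/

open MeasureTheory Set Filter Topology Real

namespace Pool.Agent.N627.LG
open Pool.Agent.N105.LT

/-- the sum of the reciprocals of the odd squares -/
theorem odd_sum : HasSum (fun n : ℕ => (1 : ℝ) / (2 * (n : ℝ) + 1) ^ 2) (π ^ 2 / 8) := by
  have h0 := hasSum_zeta_two
  have he : HasSum (fun k : ℕ => (fun n : ℕ => (1 : ℝ) / (n : ℝ) ^ 2) (2 * k)) (π ^ 2 / 6 / 4) := by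
    have h1 := h0.div_const 4
    refine h1.congr_fun ?_ |> fun h => h
    intro k
    simp only []
    push_cast
    rw [mul_pow, one_div, one_div, mul_inv]
    ring
  have hs : Summable (fun k : ℕ => (fun n : ℕ => (1 : ℝ) / (n : ℝ) ^ 2) (2 * k + 1)) :=
    h0.summable.comp_injective (i := fun k : ℕ => 2 * k + 1) (fun a b h => by simpa using h)
  have ho := hs.hasSum
  have h2 := (he.even_add_odd ho).unique h0
  have h3 : (∑' k : ℕ, (fun n : ℕ => (1 : ℝ) / (n : ℝ) ^ 2) (2 * k + 1)) = π ^ 2 / 8 := by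
    linarith
  rw [h3] at ho
  convert ho using 2 with k
  push_cast
  rfl

/-- `∫ x exp(-c x)` -/
theorem int_exp (c : ℝ) (hc : 0 < c) : IntegrableOn (fun x : ℝ => x * exp (-c * x)) (Ioi 0) ∧
    ∫ x in Ioi (0 : ℝ), x * exp (-c * x) = 1 / c ^ 2 := by
  have hd : ∀ x : ℝ, HasDerivAt (fun x : ℝ => -((x / c + 1 / c ^ 2) * exp (-c * x)))
      (x * exp (-c * x)) x := by
    intro x
    have h1 : HasDerivAt (fun x : ℝ => x / c + 1 / c ^ 2) (1 / c) x :=
      ((hasDerivAt_id x).div_const c).add_const _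
    have h2 : HasDerivAt (fun x : ℝ => exp (-c * x)) (exp (-c * x) * (-c * 1)) x :=
      ((hasDerivAt_id x).const_mul (-c)).exp
    have h3 := (h1.mul h2).neg
    refine h3.congr_deriv ?_
    have e1 : c * (1 / c) = 1 := by field_simp
    have e2 : c * (1 / c ^ 2) = 1 / c := by field_simp
    have e3 : x / c = x * (1 / c) := by ring
    rw [e3]
    linear_combination (x * exp (-c * x)) * e1 + exp (-c * x) * e2
  have ht : Tendsto (fun x : ℝ => -((x / c + 1 / c ^ 2) * exp (-c * x))) atTop (𝓝 0) := by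
    have h1 : Tendsto (fun x : ℝ => x * exp (-c * x)) atTop (𝓝 0) := by
      have := tendsto_rpow_mul_exp_neg_mul_atTop_nhds_zero 1 c hc
      simpa using this
    have h2 : Tendsto (fun x : ℝ => exp (-c * x)) atTop (𝓝 0) := by
      have := tendsto_rpow_mul_exp_neg_mul_atTop_nhds_zero 0 c hc
      simpa using this
    have h3 := ((h1.const_mul (1 / c)).add (h2.const_mul (1 / c ^ 2))).neg
    simp only [mul_zero, add_zero, neg_zero] at h3
    refine h3.congr fun x => ?_
    ring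
  have hi : IntegrableOn (fun x : ℝ => x * exp (-c * x)) (Ioi 0) :=
    integrableOn_Ioi_deriv_of_nonneg' (fun x _ => hd x)
      (fun x hx => mul_nonneg (le_of_lt hx) (exp_pos _).le) ht
  refine ⟨hi, ?_⟩
  rw [integral_Ioi_of_hasDerivAt_of_nonneg' (fun x _ => hd x)
      (fun x hx => mul_nonneg (le_of_lt hx) (exp_pos _).le) ht]
  simp

/-- the expansion -/
theorem expand (x : ℝ) (hx : 0 < x) :
    HasSum (fun n : ℕ => 4 * (x * exp (-(4 * (n : ℝ) + 2) * x))) ((cosh x)⁻¹ * kk x) := by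
  have hq0 : 0 ≤ exp (-4 * x) := (exp_pos _).le
  have hq1 : exp (-4 * x) < 1 := by
    rw [exp_lt_one_iff]
    linarith
  have hg := (hasSum_geometric_of_lt_one hq0 hq1).mul_left (4 * x * exp (-2 * x))
  have hs : sinh x ≠ 0 := (sinh_pos_iff.2 hx).ne'
  have hc : cosh x ≠ 0 := (cosh_pos x).ne'
  have hfun : (fun n : ℕ => 4 * (x * exp (-(4 * (n : ℝ) + 2) * x))) =
      fun n : ℕ => 4 * x * exp (-2 * x) * exp (-4 * x) ^ n := by
    funext n
    have : exp (-(4 * (n : ℝ) + 2) * x) = exp (-2 * x) * exp (-4 * x) ^ n := by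
      rw [← exp_nat_mul, ← exp_add]
      congr 1
      ring
    rw [this]
    ring
  have hval : (cosh x)⁻¹ * kk x = 4 * x * exp (-2 * x) * (1 - exp (-4 * x))⁻¹ := by
    have hk : kk x = x / sinh x := by
      unfold kk
      rw [if_neg hx.ne']
    rw [hk]
    have h1 : (1 - exp (-4 * x)) ≠ 0 := by linarith
    have h2 : sinh x * cosh x = (1 - exp (-4 * x)) / (4 * exp (-2 * x)) := by
      have e1 : exp (-4 * x) = exp (-2 * x) ^ 2 := by
        rw [← exp_nat_mul]
        congr 1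
        push_cast
        ring
      have e2 : exp (-2 * x) = exp (-x) ^ 2 := by
        rw [← exp_nat_mul]
        congr 1
        push_cast
        ring
      have e3 : exp x * exp (-x) = 1 := by
        rw [← exp_add]
        simp
      rw [sinh_eq, cosh_eq, eq_div_iff (by positivity)]
      rw [e1, e2]
      have e4 : exp x ^ 2 * exp (-x) ^ 2 = 1 := by
        rw [← mul_pow, e3, one_pow]
      linear_combination e4
    have h3 : (cosh x)⁻¹ * (x / sinh x) = x / (sinh x * cosh x) := by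
      field_simp
    rw [h3, h2]
    field_simp
  rw [hfun, hval]
  exact hg

theorem half : ∫ x in Ioi (0 : ℝ), (cosh x)⁻¹ * kk x = π ^ 2 / 8 := by
  have hint : ∀ n : ℕ, IntegrableOn (fun x : ℝ => 4 * (x * exp (-(4 * (n : ℝ) + 2) * x))) (Ioi 0) ∧
      ∫ x in Ioi (0 : ℝ), 4 * (x * exp (-(4 * (n : ℝ) + 2) * x)) =
        (1 : ℝ) / (2 * (n : ℝ) + 1) ^ 2 := by
    intro n
    have hc : (0 : ℝ) < 4 * (n : ℝ) + 2 := by positivity
    obtain ⟨h1, h2⟩ := int_exp _ hc
    refine ⟨h1.const_mul 4, ?_⟩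
    rw [integral_const_mul, h2]
    field_simp
    ring
  have hnorm : ∀ n : ℕ, ∫ x in Ioi (0 : ℝ), ‖4 * (x * exp (-(4 * (n : ℝ) + 2) * x))‖ =
      (1 : ℝ) / (2 * (n : ℝ) + 1) ^ 2 := by
    intro n
    rw [← (hint n).2]
    refine setIntegral_congr_fun measurableSet_Ioi fun x hx => ?_
    have : 0 ≤ 4 * (x * exp (-(4 * (n : ℝ) + 2) * x)) := by
      have := le_of_lt (mem_Ioi.1 hx)
      positivity
    exact Real.norm_of_nonneg this
  have hsum := hasSum_integral_of_summable_integral_norm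
    (F := fun (n : ℕ) (x : ℝ) => 4 * (x * exp (-(4 * (n : ℝ) + 2) * x)))
    (μ := volume.restrict (Ioi (0 : ℝ))) (fun n => (hint n).1)
    (by simp only [hnorm]; exact odd_sum.summable)
  have h1 : HasSum (fun n : ℕ => (1 : ℝ) / (2 * (n : ℝ) + 1) ^ 2)
      (∫ x in Ioi (0 : ℝ), ∑' n : ℕ, 4 * (x * exp (-(4 * (n : ℝ) + 2) * x))) := by
    have hfun : (fun n : ℕ => (1 : ℝ) / (2 * (n : ℝ) + 1) ^ 2) =
        fun n : ℕ => ∫ x in Ioi (0 : ℝ), 4 * (x * exp (-(4 * (n : ℝ) + 2) * x)) :=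
      funext fun n => (hint n).2.symm
    rw [hfun]
    exact hsum
  rw [← h1.unique odd_sum]
  refine setIntegral_congr_fun measurableSet_Ioi fun x hx => ?_
  exact (expand x hx).tsum_eq.symm

/-- LT/I4 -/
theorem i4 : Integrable (fun x : ℝ => (cosh x)⁻¹ * kk x) ∧
    ∫ x : ℝ, (cosh x)⁻¹ * kk x = π ^ 2 / 4 := by
  have heven : ∀ x : ℝ, (cosh |x|)⁻¹ * kk |x| = (cosh x)⁻¹ * kk x := by
    intro x
    rw [cosh_abs]
    congr 1
    rcases abs_choice x with h | h
    · rw [h]
    · rw [h]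
      unfold kk
      by_cases hx : x = 0
      · simp [hx]
      · rw [if_neg hx, if_neg (neg_ne_zero.2 hx), sinh_neg, neg_div_neg_eq]
  have h1 : ∫ x : ℝ, (cosh x)⁻¹ * kk x = π ^ 2 / 4 := by
    have h2 := integral_comp_abs (f := fun x : ℝ => (cosh x)⁻¹ * kk x)
    simp only [heven] at h2
    rw [h2, half]
    ring
  refine ⟨?_, h1⟩
  by_contra hcon
  have h2 := integral_undef hcon
  rw [h1] at h2
  have : π ^ 2 / 4 ≠ 0 := by positivity
  exact this h2

end Pool.Agent.N627.LG
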